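import Mathlib

/-!
# MP_a85856_gt: the lower bound for the circumradius of Minkowski sums fails for every p > 2
-/

set_option autoImplicit false

open scoped Pointwise
open Finset

namespace Pool.Agent.Results.MP_a85856_gt.FailsForAllP

/-- The `ℓ_p` norm on `ℝᵐ`, for `p ∈ [1, ∞)`. -/
noncomputable def lpNorm {m : ℕ} (p : ℝ) (x : Fin m → ℝ) : ℝ := (∑ i, |x i| ^ p) ^ (1 / p)

/-- The `ℓ_p` unit ball. -/
def ball (n : ℕ) (p : ℝ) : Set (Fin n → ℝ) := {x | lpNorm p x ≤ 1}

/-- The circumradius `R(K, C)`: the infimum (which is a minimum) of all `λ ≥ 0` such that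
`K ⊆ t + λ C` for some `t`. -/
noncomputable def circumradius {n : ℕ} (K C : Set (Fin n → ℝ)) : ℝ :=
  sInf {l : ℝ | 0 ≤ l ∧ ∃ t : Fin n → ℝ, K ⊆ {t} + l • C}

/-- Nonempty compact convex sets. -/
def IsBody {n : ℕ} (K : Set (Fin n → ℝ)) : Prop := IsCompact K ∧ Convex ℝ K ∧ K.Nonempty

theorem mem_smul_ball {n : ℕ} {p : ℝ} (hp : 1 < p) {l : ℝ} (hl : 0 ≤ l) {x : Fin n → ℝ}
    (hx : x ∈ l • ball n p) : ∑ i, |x i| ^ p ≤ l ^ p := by
  obtain ⟨y, hy, rfl⟩ := hx
  have hp0 : 0 < p := by linarith
  have h0 : 0 ≤ ∑ i, |y i| ^ p := Finset.sum_nonneg fun i _ => by positivity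
  have h1 : ∑ i, |y i| ^ p ≤ 1 := by
    have h2 : (∑ i, |y i| ^ p) ^ (1 / p) ≤ 1 := hy
    by_contra hc
    push Not at hc
    have := Real.one_lt_rpow hc (by positivity : 0 < 1 / p)
    linarith
  calc ∑ i, |(l • y) i| ^ p = l ^ p * ∑ i, |y i| ^ p := by
        rw [Finset.mul_sum]
        refine Finset.sum_congr rfl fun i _ => ?_
        rw [Pi.smul_apply, smul_eq_mul, abs_mul, Real.mul_rpow (abs_nonneg _) (abs_nonneg _),
          abs_of_nonneg hl]
    _ ≤ l ^ p * 1 := mul_le_mul_of_nonneg_left h1 (by positivity)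
    _ = l ^ p := mul_one _

theorem smul_ball_mem {n : ℕ} {p : ℝ} (hp : 1 < p) {l : ℝ} (hl : 0 < l) {x : Fin n → ℝ}
    (hx : ∑ i, |x i| ^ p ≤ l ^ p) : x ∈ l • ball n p := by
  refine ⟨l⁻¹ • x, ?_, by simp only [smul_smul, mul_inv_cancel₀ hl.ne', one_smul]⟩
  have hp0 : 0 < p := by linarith
  change (∑ i, |(l⁻¹ • x) i| ^ p) ^ (1 / p) ≤ 1
  have e : ∑ i, |(l⁻¹ • x) i| ^ p = (l⁻¹) ^ p * ∑ i, |x i| ^ p := by
    rw [Finset.mul_sum]
    refine Finset.sum_congr rfl fun i _ => ?_
    rw [Pi.smul_apply, smul_eq_mul, abs_mul, Real.mul_rpow (abs_nonneg _) (abs_nonneg _),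
      abs_of_pos (inv_pos.2 hl)]
  rw [e]
  apply Real.rpow_le_one
  · have h0 : 0 ≤ ∑ i, |x i| ^ p := Finset.sum_nonneg fun i _ => by positivity
    positivity
  · calc (l⁻¹) ^ p * ∑ i, |x i| ^ p ≤ (l⁻¹) ^ p * l ^ p :=
          mul_le_mul_of_nonneg_left hx (by positivity)
      _ = 1 := by rw [← Real.mul_rpow (by positivity) hl.le, inv_mul_cancel₀ hl.ne', Real.one_rpow]
  · positivity

/-- tangent line inequality -/
theorem tangent {p : ℝ} (hp : 1 < p) {a : ℝ} (ha : 0 < a) (t : ℝ) :
    a ^ p + p * a ^ (p - 1) * t ≤ |a + t| ^ p := by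
  have key : ∀ s : ℝ, 1 + p * s ≤ |1 + s| ^ p := by
    intro s
    by_cases hs : -1 ≤ s
    · rw [abs_of_nonneg (by linarith)]
      exact one_add_mul_self_le_rpow_one_add hs hp.le
    · push Not at hs
      have h1 : (0 : ℝ) ≤ |1 + s| ^ p := by positivity
      nlinarith
  have h1 := key (t / a)
  have h2 : |a + t| ^ p = a ^ p * |1 + t / a| ^ p := by
    rw [← abs_of_pos ha, ← Real.mul_rpow (abs_nonneg _) (abs_nonneg _), ← abs_mul, abs_of_pos ha]
    congr 2
    field_simp
  have h3 : a ^ (p - 1) = a ^ p / a := by rw [Real.rpow_sub_one ha.ne']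
  rw [h2, h3]
  have h4 : 0 < a ^ p := by positivity
  calc a ^ p + p * (a ^ p / a) * t = a ^ p * (1 + p * (t / a)) := by field_simp
    _ ≤ _ := mul_le_mul_of_nonneg_left h1 h4.le

theorem convex_sublevel {n : ℕ} {p : ℝ} (hp : 1 < p) (t : Fin n → ℝ) (c : ℝ) :
    Convex ℝ {x : Fin n → ℝ | ∑ i, |x i - t i| ^ p ≤ c} := by
  intro x hx y hy a b ha hb hab
  simp only [Set.mem_setOf_eq] at hx hy ⊢
  have h : ∀ i, |(a • x + b • y) i - t i| ^ p ≤ a * |x i - t i| ^ p + b * |y i - t i| ^ p := by
    intro i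
    have e : (a • x + b • y) i - t i = a * (x i - t i) + b * (y i - t i) := by
      simp only [Pi.add_apply, Pi.smul_apply, smul_eq_mul]
      have : t i = (a + b) * t i := by rw [hab, one_mul]
      nth_rewrite 1 [this]
      ring
    rw [e]
    have h1 : |a * (x i - t i) + b * (y i - t i)| ≤ a * |x i - t i| + b * |y i - t i| := by
      calc _ ≤ |a * (x i - t i)| + |b * (y i - t i)| := abs_add_le _ _
        _ = _ := by rw [abs_mul, abs_mul, abs_of_nonneg ha, abs_of_nonneg hb]
    refine (Real.rpow_le_rpow (abs_nonneg _) h1 (by linarith)).trans ?_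
    have := (convexOn_rpow hp.le).2 (Set.mem_Ici.2 (abs_nonneg (x i - t i)))
      (Set.mem_Ici.2 (abs_nonneg (y i - t i))) ha hb hab
    simpa only [smul_eq_mul] using this
  calc ∑ i, |(a • x + b • y) i - t i| ^ p
      ≤ ∑ i, (a * |x i - t i| ^ p + b * |y i - t i| ^ p) := Finset.sum_le_sum fun i _ => h i
    _ = a * ∑ i, |x i - t i| ^ p + b * ∑ i, |y i - t i| ^ p := by
        rw [Finset.sum_add_distrib, ← Finset.mul_sum, ← Finset.mul_sum]
    _ ≤ a * c + b * c := by gcongr
    _ = c := by rw [← add_mul, hab, one_mul]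

theorem circ_le {n : ℕ} {p : ℝ} (hp : 1 < p) (K : Set (Fin n → ℝ)) (t : Fin n → ℝ) {l : ℝ}
    (hl : 0 < l) (h : ∀ x ∈ K, ∑ i, |x i - t i| ^ p ≤ l ^ p) :
    circumradius K (ball n p) ≤ l := by
  apply csInf_le ⟨0, fun x hx => hx.1⟩
  refine ⟨hl.le, t, fun x hx => ?_⟩
  refine Set.mem_add.2 ⟨t, rfl, x - t, smul_ball_mem hp hl ?_, by abel⟩
  simpa using h x hx

theorem le_circ {n : ℕ} {p : ℝ} (hp : 1 < p) (K : Set (Fin n → ℝ)) {t0 : Fin n → ℝ} {l : ℝ}
    (hl : 0 < l) (h : ∀ x ∈ K, ∑ i, |x i - t0 i| ^ p ≤ l ^ p) {c : ℝ}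
    (hc : ∀ r : ℝ, 0 ≤ r → (∃ t : Fin n → ℝ, ∀ x ∈ K, ∑ i, |x i - t i| ^ p ≤ r ^ p) → c ≤ r) :
    c ≤ circumradius K (ball n p) := by
  apply le_csInf
  · refine ⟨l, hl.le, t0, fun x hx => ?_⟩
    refine Set.mem_add.2 ⟨t0, rfl, x - t0, smul_ball_mem hp hl ?_, by abel⟩
    simpa using h x hx
  · rintro r ⟨hr, t, ht⟩
    refine hc r hr ⟨t, fun x hx => ?_⟩
    obtain ⟨t', ht', y, hy, hxy⟩ := Set.mem_add.1 (ht hx)
    have h1 := mem_smul_ball hp hr hy
    have h2 : y = x - t := by
      rw [← hxy, Set.mem_singleton_iff.1 ht']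
      abel
    rw [h2] at h1
    simpa using h1

/-- **Theorem.** For every `p ∈ (2, ∞)` there are a dimension `n` and two nonempty compact convex
sets `K 0`, `K 1` in `ℝⁿ` with
`R(K 0 + K 1, 𝔹ⁿ_p) < ‖(R(K 0, 𝔹ⁿ_p), R(K 1, 𝔹ⁿ_p))‖_p`. -/
theorem result (p : ℝ) (hp : 2 < p) : ∃ (n : ℕ) (K : Fin 2 → Set (Fin n → ℝ)),
    (∀ i, IsBody (K i)) ∧
      circumradius (∑ i, K i) (ball n p) <
        lpNorm p (fun i => circumradius (K i) (ball n p)) := by
  have hp1 : 1 < p := by linarith
  have hp0 : 0 < p := by linarith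
  set q : ℝ := 1 / (p - 1) with hq
  have hq0 : 0 < q := by rw [hq]; apply one_div_pos.2; linarith
  have hq1 : q < 1 := by rw [hq, div_lt_one (by linarith)]; linarith
  -- choice of the size
  obtain ⟨m, hm1, hm⟩ : ∃ m : ℕ, 1 ≤ m ∧ (3 : ℝ) ^ p ≤ (m : ℝ) ^ (1 - q) := by
    have h1 : Filter.Tendsto (fun m : ℕ => (m : ℝ) ^ (1 - q)) Filter.atTop Filter.atTop :=
      (tendsto_rpow_atTop (by linarith)).comp tendsto_natCast_atTop_atTop
    obtain ⟨m, h2, h3⟩ := ((h1.eventually_ge_atTop ((3 : ℝ) ^ p)).and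
      (Filter.eventually_ge_atTop 1)).exists
    exact ⟨m, h3, h2⟩
  have hmR : (1 : ℝ) ≤ m := by exact_mod_cast hm1
  have hmpos : (0 : ℝ) < m := by linarith
  set M : ℝ := (m : ℝ) ^ q with hM
  have hM1 : 1 ≤ M := Real.one_le_rpow hmR hq0.le
  have hM0 : 0 < M := by linarith
  have hMp1 : M ^ (p - 1) = m := by
    rw [hM, ← Real.rpow_mul hmpos.le, hq, one_div, inv_mul_cancel₀ (by linarith), Real.rpow_one]
  have hMp : M ^ p = (m : ℝ) ^ (1 + q) := by
    rw [hM, ← Real.rpow_mul hmpos.le]
    congr 1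
    have hne : p - 1 ≠ 0 := by linarith
    rw [hq, one_div]
    have : p = (p - 1) + 1 := by ring
    nth_rewrite 2 [this]
    rw [mul_add, mul_one, inv_mul_cancel₀ hne]
  set N : ℕ := m + 1 with hN
  have hNR : (N : ℝ) = m + 1 := by rw [hN]; push_cast; ring
  set e := (finProdFinEquiv : Fin N × Fin N ≃ Fin (N * N)) with he
  -- the vertices
  set x : Fin N → (Fin (N * N) → ℝ) := fun k i => if (e.symm i).1 = k then -M else 1 with hx
  set y : Fin N → (Fin (N * N) → ℝ) := fun k i => if (e.symm i).2 = k then -M else 1 with hy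
  set K : Fin 2 → Set (Fin (N * N) → ℝ) :=
    ![convexHull ℝ (Set.range x), convexHull ℝ (Set.range y)] with hK
  set L : ℝ := N * (m + M ^ p) with hL
  have hLpos : 0 < L := by
    rw [hL, hNR]; positivity
  set μ : ℝ := (m : ℝ) ^ 2 + 2 * m * M ^ p + (2 * M + 1) ^ p with hμ
  have hμpos : 0 < μ := by positivity
  have hbody : ∀ i, IsBody (K i) := by
    intro i
    fin_cases i
    · exact ⟨(Set.finite_range x).isCompact_convexHull (𝕜 := ℝ), convex_convexHull ℝ _,
        (Set.range_nonempty x).convexHull⟩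
    · exact ⟨(Set.finite_range y).isCompact_convexHull (𝕜 := ℝ), convex_convexHull ℝ _,
        (Set.range_nonempty y).convexHull⟩
  have hsum : ∀ f : Fin N × Fin N → ℝ, ∑ i, f (e.symm i) = ∑ a, ∑ b, f (a, b) := by
    intro f
    rw [Equiv.sum_comp e.symm f, Fintype.sum_prod_type]
  have hcount : ∀ (k : Fin N) (u w : ℝ), ∑ a : Fin N, (if a = k then u else w) = u + m * w := by
    intro k u w
    rw [← Finset.add_sum_erase _ _ (Finset.mem_univ k)]
    simp only [if_true]
    congr 1
    rw [Finset.sum_congr rfl (g := fun _ => w) (by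
      intro a ha
      rw [if_neg (Finset.ne_of_mem_erase ha)])]
    rw [Finset.sum_const, Finset.card_erase_of_mem (Finset.mem_univ k), Finset.card_univ,
      Fintype.card_fin, hN, nsmul_eq_mul]
    simp
  -- values at the centre `0`
  have hval : ∀ s : Fin 2, ∀ z ∈ K s, ∑ i, |z i - (0 : Fin (N * N) → ℝ) i| ^ p ≤
      (L ^ (1 / p)) ^ p := by
    have hLp : (L ^ (1 / p)) ^ p = L := by
      rw [← Real.rpow_mul hLpos.le, one_div, inv_mul_cancel₀ hp0.ne', Real.rpow_one]
    rw [hLp]
    intro s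
    fin_cases s
    · have : convexHull ℝ (Set.range x) ⊆
          {z | ∑ i, |z i - (0 : Fin (N * N) → ℝ) i| ^ p ≤ L} := by
        apply convexHull_min _ (convex_sublevel hp1 0 L)
        rintro _ ⟨k, rfl⟩
        simp only [Set.mem_setOf_eq, Pi.zero_apply, sub_zero]
        have h1 := hsum (fun ab => |if ab.1 = k then -M else 1| ^ p)
        simp only [hx]
        rw [h1]
        have h2 : ∀ a : Fin N, (∑ _b : Fin N, |if a = k then -M else 1| ^ p) =
            if a = k then N * M ^ p else N := by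
          intro a
          rw [Finset.sum_const, Finset.card_univ, Fintype.card_fin, nsmul_eq_mul]
          split_ifs
          · rw [abs_neg, abs_of_pos hM0]
          · simp
        rw [Finset.sum_congr rfl fun a _ => h2 a, hcount]
        rw [hL]; apply le_of_eq; ring
      exact this
    · have : convexHull ℝ (Set.range y) ⊆
          {z | ∑ i, |z i - (0 : Fin (N * N) → ℝ) i| ^ p ≤ L} := by
        apply convexHull_min _ (convex_sublevel hp1 0 L)
        rintro _ ⟨k, rfl⟩
        simp only [Set.mem_setOf_eq, Pi.zero_apply, sub_zero]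
        have h1 := hsum (fun ab => |if ab.2 = k then -M else 1| ^ p)
        simp only [hy]
        rw [h1]
        have h2 : ∀ a : Fin N, (∑ b : Fin N, |if b = k then -M else 1| ^ p) = M ^ p + m * 1 := by
          intro a
          rw [← hcount k (M ^ p) 1]
          refine Finset.sum_congr rfl fun b _ => ?_
          split_ifs
          · rw [abs_neg, abs_of_pos hM0]
          · simp
        rw [Finset.sum_congr rfl fun a _ => h2 a, Finset.sum_const, Finset.card_univ,
          Fintype.card_fin, nsmul_eq_mul, hL]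
        apply le_of_eq; ring
      exact this
  -- the lower bound for each coordinate
  have hcoord : ∀ t : ℝ, m + M ^ p ≤ |(-M) - t| ^ p + m * |1 - t| ^ p := by
    intro t
    have h1 := tangent hp1 hM0 t
    have h2 := tangent hp1 one_pos (-t)
    rw [hMp1] at h1
    rw [Real.one_rpow, Real.one_rpow] at h2
    have e1 : |(-M) - t| = |M + t| := by rw [← abs_neg]; congr 1; ring
    have e2 : (1 : ℝ) - t = 1 + -t := by ring
    rw [e1, e2]
    have h3 : m * (1 + p * 1 * -t) ≤ m * |1 + -t| ^ p := mul_le_mul_of_nonneg_left h2 hmpos.le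
    nlinarith
  have hlow : ∀ s : Fin 2, L ^ (1 / p) ≤ circumradius (K s) (ball (N * N) p) := by
    intro s
    refine le_circ hp1 (K s) (by positivity) (hval s) ?_
    rintro r hr ⟨t, ht⟩
    have hkey : L ≤ r ^ p := by
      have hNpos : (0 : ℝ) < N := by rw [hNR]; positivity
      have h1 : (N : ℝ) * L ≤ N * r ^ p := by
        fin_cases s
        · have hxk : ∀ k, ∑ i, |x k i - t i| ^ p ≤ r ^ p := fun k =>
            ht _ (subset_convexHull ℝ _ ⟨k, rfl⟩)
          calc (N : ℝ) * L = ∑ _i : Fin (N * N), (m + M ^ p) := by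
                rw [Finset.sum_const, Finset.card_univ, Fintype.card_fin, nsmul_eq_mul, hL]
                push_cast; ring
            _ ≤ ∑ i : Fin (N * N), ∑ k : Fin N, |x k i - t i| ^ p := by
                refine Finset.sum_le_sum fun i _ => ?_
                refine (hcoord (t i)).trans (le_of_eq ?_)
                rw [← hcount (e.symm i).1]
                refine Finset.sum_congr rfl fun k _ => ?_
                simp only [hx]
                by_cases h : k = (e.symm i).1
                · rw [if_pos h, if_pos h.symm]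
                · rw [if_neg h, if_neg (fun h' => h h'.symm)]
            _ = ∑ k : Fin N, ∑ i : Fin (N * N), |x k i - t i| ^ p := Finset.sum_comm
            _ ≤ ∑ _k : Fin N, r ^ p := Finset.sum_le_sum fun k _ => hxk k
            _ = N * r ^ p := by
                rw [Finset.sum_const, Finset.card_univ, Fintype.card_fin, nsmul_eq_mul]
        · have hyk : ∀ k, ∑ i, |y k i - t i| ^ p ≤ r ^ p := fun k =>
            ht _ (subset_convexHull ℝ _ ⟨k, rfl⟩)
          calc (N : ℝ) * L = ∑ _i : Fin (N * N), (m + M ^ p) := by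
                rw [Finset.sum_const, Finset.card_univ, Fintype.card_fin, nsmul_eq_mul, hL]
                push_cast; ring
            _ ≤ ∑ i : Fin (N * N), ∑ k : Fin N, |y k i - t i| ^ p := by
                refine Finset.sum_le_sum fun i _ => ?_
                refine (hcoord (t i)).trans (le_of_eq ?_)
                rw [← hcount (e.symm i).2]
                refine Finset.sum_congr rfl fun k _ => ?_
                simp only [hy]
                by_cases h : k = (e.symm i).2
                · rw [if_pos h, if_pos h.symm]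
                · rw [if_neg h, if_neg (fun h' => h h'.symm)]
            _ = ∑ k : Fin N, ∑ i : Fin (N * N), |y k i - t i| ^ p := Finset.sum_comm
            _ ≤ ∑ _k : Fin N, r ^ p := Finset.sum_le_sum fun k _ => hyk k
            _ = N * r ^ p := by
                rw [Finset.sum_const, Finset.card_univ, Fintype.card_fin, nsmul_eq_mul]
      exact le_of_mul_le_mul_left h1 hNpos
    calc L ^ (1 / p) ≤ (r ^ p) ^ (1 / p) := Real.rpow_le_rpow hLpos.le hkey (by positivity)
      _ = r := by rw [← Real.rpow_mul hr, one_div, mul_inv_cancel₀ hp0.ne', Real.rpow_one]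
  -- the upper bound for the sum
  have hup : circumradius (∑ i, K i) (ball (N * N) p) ≤ μ ^ (1 / p) := by
    refine circ_le hp1 _ (fun _ => 1) (by positivity) ?_
    have hμp : (μ ^ (1 / p)) ^ p = μ := by
      rw [← Real.rpow_mul hμpos.le, one_div, inv_mul_cancel₀ hp0.ne', Real.rpow_one]
    rw [hμp]
    have hsumK : ∑ i, K i = convexHull ℝ (Set.range x + Set.range y) := by
      rw [Fin.sum_univ_two, convexHull_add]
      rfl
    rw [hsumK]
    have : convexHull ℝ (Set.range x + Set.range y) ⊆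
        {z | ∑ i, |z i - (fun _ => (1 : ℝ)) i| ^ p ≤ μ} := by
      apply convexHull_min _ (convex_sublevel hp1 _ μ)
      rintro _ ⟨_, ⟨k, rfl⟩, _, ⟨j, rfl⟩, rfl⟩
      simp only [Set.mem_setOf_eq, Pi.add_apply, hx, hy]
      have h1 := hsum (fun ab => |(if ab.1 = k then -M else 1) + (if ab.2 = j then -M else 1) - 1| ^ p)
      simp only at h1
      rw [h1]
      have h2 : ∀ a : Fin N, (∑ b : Fin N,
          |(if a = k then -M else 1) + (if b = j then -M else 1) - 1| ^ p) =
            if a = k then (2 * M + 1) ^ p + m * M ^ p else M ^ p + m * 1 := by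
        intro a
        by_cases ha : a = k
        · simp only [ha, if_true]
          rw [← hcount j ((2 * M + 1) ^ p) (M ^ p)]
          refine Finset.sum_congr rfl fun b _ => ?_
          by_cases hb : b = j
          · simp only [hb, if_true]
            have : -M + -M - 1 = -(2 * M + 1) := by ring
            rw [this, abs_neg, abs_of_pos (by linarith)]
          · simp only [hb, if_false]
            have : -M + 1 - 1 = -M := by ring
            rw [this, abs_neg, abs_of_pos hM0]
        · simp only [ha, if_false]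
          rw [← hcount j (M ^ p) 1]
          refine Finset.sum_congr rfl fun b _ => ?_
          by_cases hb : b = j
          · simp only [hb, if_true]
            have : 1 + -M - 1 = -M := by ring
            rw [this, abs_neg, abs_of_pos hM0]
          · simp only [hb, if_false]
            norm_num
      rw [Finset.sum_congr rfl fun a _ => h2 a, hcount, hμ]
      apply le_of_eq; ring
    exact this
  -- comparison
  have hcmp : μ < L + L := by
    have h1 : (2 * M + 1) ^ p ≤ (m : ℝ) ^ 2 := by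
      calc (2 * M + 1) ^ p ≤ (3 * M) ^ p := Real.rpow_le_rpow (by positivity) (by linarith) hp0.le
        _ = 3 ^ p * M ^ p := Real.mul_rpow (by norm_num) hM0.le
        _ ≤ (m : ℝ) ^ (1 - q) * (m : ℝ) ^ (1 + q) := by
            rw [hMp]
            exact mul_le_mul_of_nonneg_right hm (by positivity)
        _ = (m : ℝ) ^ (2 : ℝ) := by
            rw [← Real.rpow_add hmpos]; congr 1; ring
        _ = (m : ℝ) ^ 2 := by
            rw [← Real.rpow_natCast]; norm_num
    have h2 : 0 < M ^ p := by positivity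
    rw [hμ, hL, hNR]
    nlinarith
  refine ⟨N * N, K, hbody, lt_of_le_of_lt hup ?_⟩
  unfold lpNorm
  apply Real.rpow_lt_rpow hμpos.le _ (by positivity)
  rw [Fin.sum_univ_two]
  have hR : ∀ s : Fin 2, L ≤ |circumradius (K s) (ball (N * N) p)| ^ p := by
    intro s
    have h1 := hlow s
    have h2 : 0 < L ^ (1 / p) := by positivity
    rw [abs_of_pos (lt_of_lt_of_le h2 h1)]
    calc L = (L ^ (1 / p)) ^ p := by
          rw [← Real.rpow_mul hLpos.le, one_div, inv_mul_cancel₀ hp0.ne', Real.rpow_one]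
      _ ≤ _ := Real.rpow_le_rpow h2.le h1 hp0.le
  have h0 := hR 0
  have h1 := hR 1
  linarith

end Pool.Agent.Results.MP_a85856_gt.FailsForAllP
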